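import Pool.Agent.VM5.Stmts
import Pool.Agent.Helper98_VM5.Kit

/-!
# CNB (squad VMF): multiples of `A` with small fractional part
-/

set_option autoImplicit false

namespace Pool.Agent.VM5.H32

open Pool.Agent.VM (Nr)
open Pool.Agent.VM5.Kit

theorem cnb : CnbStmt := by
  intro t η L b u A c X hu hb hA hc hη hL hX
  classical
  have hu0 : (0 : ℝ) < u := by exact_mod_cast hu
  have hA0 : (0 : ℝ) < A := by exact_mod_cast hA
  set β : ℝ := t - (b : ℝ) / (u : ℝ) with hβ
  set T : ℝ := (u : ℝ) * (η + |β| * (A : ℝ) * (X : ℝ)) with hT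
  have hT0 : 0 ≤ T := by positivity
  let f : ℤ → ℤ := fun n => b * A * n - round (t * ((A : ℝ) * (n : ℝ))) * u
  -- the basic inequality
  have hf : ∀ n : ℤ, Nr (t * ((A : ℝ) * (n : ℝ))) η →
      |(f n : ℝ) / u + β * A * n| ≤ η := by
    intro n hn
    obtain ⟨z, hz⟩ := hn
    have h1 : |t * ((A : ℝ) * (n : ℝ)) - (round (t * ((A : ℝ) * (n : ℝ))) : ℤ)| ≤ η :=
      (round_le _ z).trans hz
    have h2 : (f n : ℝ) / u + β * A * n =
        t * ((A : ℝ) * (n : ℝ)) - (round (t * ((A : ℝ) * (n : ℝ))) : ℤ) := by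
      simp only [f, hβ]
      push_cast
      field_simp
      ring
    rw [h2]
    exact h1
  have hfin : {n : ℤ | |n| ≤ (X : ℤ) ∧ Nr (t * ((A : ℝ) * (n : ℝ))) η}.Finite := by
    refine (Set.finite_Icc (-(X : ℤ)) (X : ℤ)).subset ?_
    intro n hn
    exact Set.mem_Icc.2 (abs_le.1 hn.1)
  have hcard := card_fib_le (P := fun n : ℤ => |n| ≤ (X : ℤ) ∧ Nr (t * ((A : ℝ) * (n : ℝ))) η)
    hfin f (Finset.Icc (-⌊T⌋) ⌊T⌋) (1 + (c : ℝ) * L / (u : ℝ)) ?_ ?_
  · refine hcard.trans ?_
    apply mul_le_mul_of_nonneg_right _ (by positivity)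
    have h1 : ((Finset.Icc (-⌊T⌋) ⌊T⌋).card : ℝ) = 2 * (⌊T⌋ : ℝ) + 1 := by
      rw [Int.card_Icc]
      have h2 : 0 ≤ ⌊T⌋ := Int.floor_nonneg.2 hT0
      have h3 : ((⌊T⌋ + 1 - -⌊T⌋).toNat : ℤ) = ⌊T⌋ + 1 - -⌊T⌋ := Int.toNat_of_nonneg (by omega)
      have h4 : (((⌊T⌋ + 1 - -⌊T⌋).toNat : ℤ) : ℝ) = ((⌊T⌋ + 1 - -⌊T⌋ : ℤ) : ℝ) := by
        rw [h3]
      rw [Int.cast_natCast] at h4
      rw [h4]
      push_cast
      ring
    rw [h1]
    have h2 := Int.floor_le T
    have h3 : 2 * (u : ℝ) * (η + |β| * (A : ℝ) * (X : ℝ)) = 2 * T := by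
      rw [hT]
      ring
    rw [h3]
    linarith
  · intro n hn
    have h1 := hf n hn.2
    have h2 : |(f n : ℝ)| ≤ T := by
      have h3 : |(f n : ℝ) / u| ≤ η + |β * A * n| := by
        have h4 : (f n : ℝ) / u = ((f n : ℝ) / u + β * A * n) - β * A * n := by ring
        rw [h4]
        refine (abs_sub _ _).trans ?_
        linarith
      have h4 : |β * A * n| ≤ |β| * A * X := by
        rw [abs_mul, abs_mul, abs_of_pos hA0]
        have h5 : |(n : ℝ)| ≤ X := by
          have h6 : ((|n| : ℤ) : ℝ) ≤ ((X : ℤ) : ℝ) := by exact_mod_cast hn.1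
          rw [Int.cast_abs] at h6
          exact_mod_cast h6
        gcongr
      rw [abs_div, abs_of_pos hu0, div_le_iff₀ hu0] at h3
      rw [hT]
      calc |(f n : ℝ)| ≤ (η + |β * A * n|) * u := h3
        _ ≤ (η + |β| * A * X) * u := by gcongr
        _ = _ := by ring
    have h3 := abs_le.1 h2
    rw [Finset.mem_Icc]
    constructor
    · have h4 : -(f n) ≤ ⌊T⌋ := by
        apply Int.le_floor.2
        push_cast
        linarith
      linarith
    · exact Int.le_floor.2 h3.2
  · intro σ _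
    set g : ℕ := Nat.gcd A u with hg
    have hg1 : 1 ≤ g := Nat.gcd_pos_of_pos_left _ hA
    obtain ⟨M, hM⟩ : g ∣ u := Nat.gcd_dvd_right A u
    obtain ⟨A', hA'⟩ : g ∣ A := Nat.gcd_dvd_left A u
    have hM1 : 1 ≤ M := by
      rcases Nat.eq_zero_or_pos M with h | h
      · rw [h, mul_zero] at hM
        omega
      · exact h
    have hcop : Nat.Coprime A' M := by
      have h1 := Nat.coprime_div_gcd_div_gcd (m := A) (n := u) (by rw [← hg]; exact hg1)
      rw [← hg] at h1
      have h2 : A / g = A' := by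
        rw [hA']
        exact Nat.mul_div_cancel_left _ hg1
      have h3 : u / g = M := by
        rw [hM]
        exact Nat.mul_div_cancel_left _ hg1
      rwa [h2, h3] at h1
    have hfin2 : {n : ℤ | (|n| ≤ (X : ℤ) ∧ Nr (t * ((A : ℝ) * (n : ℝ))) η) ∧ f n = σ}.Finite :=
      hfin.subset fun n hn => hn.1
    have h1 := card_dvd_spaced
      (P := fun n : ℤ => (|n| ≤ (X : ℤ) ∧ Nr (t * ((A : ℝ) * (n : ℝ))) η) ∧ f n = σ)
      hfin2 M L hM1 hL ?_ ?_
    · refine h1.trans ?_
      have h2 : L / (M : ℝ) ≤ (c : ℝ) * L / (u : ℝ) := by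
        have hM0 : (0 : ℝ) < M := by exact_mod_cast hM1
        rw [div_le_div_iff₀ hM0 hu0]
        have h3 : (u : ℝ) = g * M := by
          rw [hM]
          push_cast
          ring
        have h4 : (g : ℝ) ≤ c := by exact_mod_cast hc
        rw [h3]
        calc L * (g * M) = g * (L * M) := by ring
          _ ≤ c * (L * M) := by gcongr
          _ = c * L * M := by ring
      linarith
    · intro x y hx hy
      have h2 : f x = f y := hx.2.trans hy.2.symm
      simp only [f] at h2
      have h3 : (u : ℤ) ∣ b * (A * (x - y)) := by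
        refine ⟨round (t * ((A : ℝ) * (x : ℝ))) - round (t * ((A : ℝ) * (y : ℝ))), ?_⟩
        linear_combination h2
      have h4 : IsCoprime (u : ℤ) b := by
        rw [Int.isCoprime_iff_gcd_eq_one, Int.gcd_comm]
        exact hb
      have h5 : (u : ℤ) ∣ A * (x - y) := h4.dvd_of_dvd_mul_left h3
      have h6 : (g : ℤ) * M ∣ g * (A' * (x - y)) := by
        have h7 : (u : ℤ) = g * M := by
          rw [hM]
          push_cast
          ring
        have h8 : (A : ℤ) = g * A' := by
          rw [hA']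
          push_cast
          ring
        rw [h7, h8, mul_assoc] at h5
        exact h5
      have h7 : (M : ℤ) ∣ A' * (x - y) :=
        Int.dvd_of_mul_dvd_mul_left (by exact_mod_cast (show g ≠ 0 by omega)) h6
      have h8 : IsCoprime (M : ℤ) (A' : ℤ) := by
        rw [Nat.isCoprime_iff_coprime]
        exact hcop.symm
      exact h8.dvd_of_dvd_mul_left h7
    · intro x y hx hy
      rcases hX with hX | hX
      · have h2 : |(x : ℝ)| ≤ X := by
          have h6 : ((|x| : ℤ) : ℝ) ≤ ((X : ℤ) : ℝ) := by exact_mod_cast hx.1.1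
          rw [Int.cast_abs] at h6
          exact_mod_cast h6
        have h3 : |(y : ℝ)| ≤ X := by
          have h6 : ((|y| : ℤ) : ℝ) ≤ ((X : ℤ) : ℝ) := by exact_mod_cast hy.1.1
          rw [Int.cast_abs] at h6
          exact_mod_cast h6
        have h4 := abs_sub (x : ℝ) (y : ℝ)
        linarith
      · have h2 := hf x hx.1.2
        have h3 := hf y hy.1.2
        rw [hx.2] at h2
        rw [hy.2] at h3
        have h4 : |β * A * ((x : ℝ) - y)| ≤ 2 * η := by
          have h5 : β * A * ((x : ℝ) - y) =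
              ((σ : ℝ) / u + β * A * x) - ((σ : ℝ) / u + β * A * y) := by ring
          rw [h5]
          refine (abs_sub _ _).trans ?_
          linarith
        rw [abs_mul, abs_mul, abs_of_pos hA0] at h4
        have h5 : 0 < |β| * A := by
          by_contra hcon
          have h6 : |β| * A = 0 := le_antisymm (not_lt.1 hcon) (by positivity)
          rw [h6, zero_mul] at hX
          linarith
        exact le_of_mul_le_mul_left (h4.trans hX) h5

end Pool.Agent.VM5.H32
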