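import Pool.Agent.VM5.StmtsB
import Pool.Agent.Helper91_VM5.Sig

/-! SGw: the numerators (second version of the hypotheses). -/

set_option autoImplicit false

namespace Pool.Agent.VM5.H32

open Pool.Agent.VM (Nr)
open Pool.Agent.VM5.H91 (sig_aux size_aux mem_P2 coef_size)

theorem sgw : SgwStmt := by
  refine ⟨72, by norm_num, ?_⟩
  intro N D K u t b S hpar p hp p' hp' hcl
  obtain ⟨hDK, hN5, hD10, hND2, hNK, hDN, hDK2, hu1, hgcd, hW4, hW3, hNW, hS⟩ := hpar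
  have hS' : ∀ d ∈ S, d ≤ 2 * D := fun d hd => (hS d hd).2.1
  have hN1 : 1 ≤ N := by
    obtain ⟨h1, h2, _⟩ := mem_P2 hp
    exact h1.trans h2
  have hK1 : 0 < K := by
    rcases Nat.eq_zero_or_pos K with h | h
    · rw [h] at hN5
      simp at hN5
      omega
    · exact h
  have hu0 : 0 < u := by omega
  have huR : (0 : ℝ) < u := by exact_mod_cast hu0
  have hKR : (0 : ℝ) < K := by exact_mod_cast hK1
  have hNR : (0 : ℝ) ≤ N := Nat.cast_nonneg _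
  have hDR : (0 : ℝ) ≤ D := Nat.cast_nonneg _
  have hDKR : 4 * (D : ℝ) * (K : ℝ) ≤ N := by exact_mod_cast hDK
  set β := |t - (b : ℝ) / (u : ℝ)| with hβ
  have hβ0 : 0 ≤ β := abs_nonneg _
  set W := WW N u t b with hW
  have hWu : (u : ℝ) ≤ W := le_max_left _ _
  have hWB : β * (u : ℝ) * (N : ℝ) ^ 5 ≤ W := le_max_right _ _
  have hW0 : 0 < W := lt_of_lt_of_le huR hWu
  obtain ⟨⟨c4n, c4⟩, c3, c2⟩ := coef_size hS' hp
  obtain ⟨⟨c4n', c4'⟩, c3', c2'⟩ := coef_size hS' hp'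
  have hc3 := hcl 3
  have hc2 := hcl 2
  have hc1 := hcl 1
  have e3 : (((3 : Fin 4) : ℕ) : ℕ) + 1 = 4 := rfl
  have e2 : (((2 : Fin 4) : ℕ) : ℕ) + 1 = 3 := rfl
  have e1 : (((1 : Fin 4) : ℕ) : ℕ) + 1 = 2 := rfl
  rw [e3] at hc3
  rw [e2] at hc2
  rw [e1] at hc1
  refine ⟨?_, ?_, ?_⟩
  · -- the highest coordinate
    obtain ⟨z, hz⟩ := hc3
    have hz' : |t * ((m4 p - m4 p' : ℤ) : ℝ) - (z : ℝ)| ≤ 1 / (K : ℝ) ^ 4 := by
      have : t * ((m4 p - m4 p' : ℤ) : ℝ) = t * (co2 3 p : ℝ) - t * (co2 3 p' : ℝ) := by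
        have q1 : co2 3 p = m4 p := rfl
        have q2 : co2 3 p' = m4 p' := rfl
        rw [q1, q2]
        push_cast
        ring
      rw [this]
      exact hz
    obtain ⟨hd, hcl1, hsz⟩ := sig_aux t (1 / (K : ℝ) ^ 4) b (m4 p - m4 p') z u hu0 hz'
    rw [← hβ] at hsz
    have hΔ : |((m4 p - m4 p' : ℤ) : ℝ)| ≤ 80 * (N : ℝ) ^ 1 * (D : ℝ) ^ 4 := by
      push_cast
      rw [abs_le]
      constructor <;> linarith
    have hs := size_aux β u N D K 80 _ 4 1 rfl hβ0 huR.le hKR hDR hNR hDKR (by norm_num) hΔ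
    have hσ : |((b * (m4 p - m4 p') - z * (u : ℤ) : ℤ) : ℝ)| < 1 := by
      refine lt_of_le_of_lt hsz ?_
      have h5 : (80 / 4 ^ 4 : ℝ) * (β * (u : ℝ) * (N : ℝ) ^ 5) / (K : ℝ) ^ 4 ≤
          (80 / 4 ^ 4 : ℝ) * W / (K : ℝ) ^ 4 := by gcongr
      have h6 : (u : ℝ) * (1 / (K : ℝ) ^ 4) ≤ W / (K : ℝ) ^ 4 := by
        rw [mul_one_div]
        gcongr
      have h7 : W / (K : ℝ) ^ 4 ≤ 1 / 1000000 := by
        rw [div_le_div_iff₀ (by positivity) (by norm_num)]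
        linarith
      have h8 : (80 / 4 ^ 4 : ℝ) * W / (K : ℝ) ^ 4 = (80 / 4 ^ 4 : ℝ) * (W / (K : ℝ) ^ 4) := by
        ring
      rw [h8] at h5
      have h9 : (80 / 4 ^ 4 : ℝ) * (W / (K : ℝ) ^ 4) ≤ (80 / 4 ^ 4 : ℝ) * (1 / 1000000) := by
        gcongr
      linarith
    have hσ0 : b * (m4 p - m4 p') - z * (u : ℤ) = 0 := by
      have h1 : |(b * (m4 p - m4 p') - z * (u : ℤ))| < 1 := by exact_mod_cast hσ
      exact Int.abs_lt_one_iff.mp h1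
    rw [hσ0] at hcl1 hd
    constructor
    · rw [sub_zero] at hd
      have hco : IsCoprime (u : ℤ) b := by
        rw [Int.isCoprime_iff_gcd_eq_one, Int.gcd_comm]
        exact hgcd
      exact hco.dvd_of_dvd_mul_left hd
    · have : (t - (b : ℝ) / (u : ℝ)) * ((m4 p : ℝ) - (m4 p' : ℝ)) =
          (t - (b : ℝ) / (u : ℝ)) * ((m4 p - m4 p' : ℤ) : ℝ) + ((0 : ℤ) : ℝ) / (u : ℝ) := by
        push_cast
        ring
      rw [this]
      exact hcl1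
  · obtain ⟨z, hz⟩ := hc2
    have hz' : |t * ((m3 p - m3 p' : ℤ) : ℝ) - (z : ℝ)| ≤ 1 / (K : ℝ) ^ 3 := by
      have : t * ((m3 p - m3 p' : ℤ) : ℝ) = t * (co2 2 p : ℝ) - t * (co2 2 p' : ℝ) := by
        have q1 : co2 2 p = m3 p := rfl
        have q2 : co2 2 p' = m3 p' := rfl
        rw [q1, q2]
        push_cast
        ring
      rw [this]
      exact hz
    obtain ⟨hd, hcl1, hsz⟩ := sig_aux t (1 / (K : ℝ) ^ 3) b (m3 p - m3 p') z u hu0 hz'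
    rw [← hβ] at hsz
    refine ⟨_, hd, ?_, ?_⟩
    · have hΔ : |((m3 p - m3 p' : ℤ) : ℝ)| ≤ 480 * (N : ℝ) ^ 2 * (D : ℝ) ^ 3 := by
        push_cast
        have := abs_sub (m3 p : ℝ) (m3 p' : ℝ)
        linarith
      have hs := size_aux β u N D K 480 _ 3 2 rfl hβ0 huR.le hKR hDR hNR hDKR (by norm_num) hΔ
      have h5 : (480 / 4 ^ 3 : ℝ) * (β * (u : ℝ) * (N : ℝ) ^ 5) / (K : ℝ) ^ 3 ≤
          (480 / 4 ^ 3 : ℝ) * W / (K : ℝ) ^ 3 := by gcongr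
      have h6 : (u : ℝ) * (1 / (K : ℝ) ^ 3) ≤ W / (K : ℝ) ^ 3 := by
        rw [mul_one_div]
        gcongr
      have h8 : (480 / 4 ^ 3 : ℝ) * W / (K : ℝ) ^ 3 = (480 / 4 ^ 3 : ℝ) * (W / (K : ℝ) ^ 3) := by
        ring
      have h9 : 0 ≤ W / (K : ℝ) ^ 3 := by positivity
      have h10 : 72 * W / (K : ℝ) ^ 3 = 72 * (W / (K : ℝ) ^ 3) := by ring
      rw [h8] at h5
      rw [h10]
      norm_num at h5
      linarith
    · have : (t - (b : ℝ) / (u : ℝ)) * ((m3 p : ℝ) - (m3 p' : ℝ)) =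
          (t - (b : ℝ) / (u : ℝ)) * ((m3 p - m3 p' : ℤ) : ℝ) := by
        push_cast
        ring
      rw [this]
      exact hcl1
  · obtain ⟨z, hz⟩ := hc1
    have hz' : |t * ((2 * m2 p - 2 * m2 p' : ℤ) : ℝ) - ((2 * z : ℤ) : ℝ)| ≤
        2 / (K : ℝ) ^ 2 := by
      have : t * ((2 * m2 p - 2 * m2 p' : ℤ) : ℝ) - ((2 * z : ℤ) : ℝ) =
          2 * (t * (co2 1 p : ℝ) - t * (co2 1 p' : ℝ) - (z : ℝ)) := by
        have q1 : co2 1 p = m2 p := rfl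
        have q2 : co2 1 p' = m2 p' := rfl
        rw [q1, q2]
        push_cast
        ring
      rw [this, abs_mul, abs_of_nonneg (by norm_num : (0 : ℝ) ≤ 2)]
      have h2 : 2 / (K : ℝ) ^ 2 = 2 * (1 / (K : ℝ) ^ 2) := by ring
      rw [h2]
      exact mul_le_mul_of_nonneg_left hz (by norm_num)
    obtain ⟨hd, hcl1, hsz⟩ := sig_aux t (2 / (K : ℝ) ^ 2) b (2 * m2 p - 2 * m2 p') (2 * z) u hu0 hz'
    rw [← hβ] at hsz
    refine ⟨_, hd, ?_, ?_⟩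
    swap
    · have e9 : (t - (b : ℝ) / (u : ℝ)) * (2 * (m2 p : ℝ) - 2 * (m2 p' : ℝ)) =
          (t - (b : ℝ) / (u : ℝ)) * ((2 * m2 p - 2 * m2 p' : ℤ) : ℝ) := by
        push_cast
        ring
      rw [e9]
      exact hcl1
    have hΔ : |((2 * m2 p - 2 * m2 p' : ℤ) : ℝ)| ≤ 1120 * (N : ℝ) ^ 3 * (D : ℝ) ^ 2 := by
      push_cast
      have := abs_sub (2 * (m2 p : ℝ)) (2 * (m2 p' : ℝ))
      rw [abs_mul, abs_mul, abs_of_nonneg (by norm_num : (0 : ℝ) ≤ 2)] at this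
      linarith
    have hs := size_aux β u N D K 1120 _ 2 3 rfl hβ0 huR.le hKR hDR hNR hDKR (by norm_num) hΔ
    have h5 : (1120 / 4 ^ 2 : ℝ) * (β * (u : ℝ) * (N : ℝ) ^ 5) / (K : ℝ) ^ 2 ≤
        (1120 / 4 ^ 2 : ℝ) * W / (K : ℝ) ^ 2 := by gcongr
    have h6 : (u : ℝ) * (2 / (K : ℝ) ^ 2) ≤ 2 * (W / (K : ℝ) ^ 2) := by
      have : (u : ℝ) * (2 / (K : ℝ) ^ 2) = 2 * ((u : ℝ) / (K : ℝ) ^ 2) := by ring
      rw [this]
      gcongr
    have h8 : (1120 / 4 ^ 2 : ℝ) * W / (K : ℝ) ^ 2 = (1120 / 4 ^ 2 : ℝ) * (W / (K : ℝ) ^ 2) := by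
      ring
    have h9 : 0 ≤ W / (K : ℝ) ^ 2 := by positivity
    have h10 : 72 * W / (K : ℝ) ^ 2 = 72 * (W / (K : ℝ) ^ 2) := by ring
    rw [h8] at h5
    rw [h10]
    norm_num at h5
    linarith

end Pool.Agent.VM5.H32
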