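import Pool.Agent.VM5.Stmts
import Pool.Agent.Helper98_VM5.Kit

/-!
# VCN (squad VMF): the number of `v`
-/

set_option autoImplicit false

namespace Pool.Agent.VM5.H32

open Pool.Agent.VM (Nr)
open Pool.Agent.VM5.Kit

theorem vcn (cnu : CnuStmt) : VcnStmt := by
  refine ⟨700000, by norm_num, ?_⟩
  intro N D K U G t b S hpar d hd c
  classical
  obtain ⟨h4, h5, hD10, hD8, hDK, hG1, hGD, hU1, hU2, hU3, hb, ht, hS⟩ := hpar
  obtain ⟨hd1, hd2, -⟩ := hS d hd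
  have hD0 : (0 : ℝ) < D := by
    have : 0 < D := by omega
    exact_mod_cast this
  have hD1 : (1 : ℝ) ≤ D := by
    have : 1 ≤ D := by omega
    exact_mod_cast this
  have hK1 : 1 ≤ K := by omega
  have hK0 : (0 : ℝ) < K := by exact_mod_cast hK1
  have hN1 : 1 ≤ N := by
    have h6 : 0 < D ^ 8 := by
      have : 0 < D := by omega
      positivity
    omega
  have hN0 : (0 : ℝ) < N := by exact_mod_cast hN1
  have hU0 : (0 : ℝ) < U := by exact_mod_cast hU3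
  have hG0 : (0 : ℝ) < G := by linarith
  have hDG : (1 : ℝ) ≤ (D : ℝ) ^ 3 * G := one_le_mul_of_one_le_of_one_le (one_le_pow₀ hD1) hG1
  set Pv : ℤ → Prop := fun v => 1 ≤ v ∧ v ≤ (N : ℤ) ^ 2 ∧
    Nr (20 * t * (d : ℝ) ^ 3 * (v : ℝ) - c) (1 / (K : ℝ) ^ 3) with hPv
  rcases isEmpty_or_nonempty {v : ℤ // Pv v} with hemp | hne
  · have h0 : Nat.card {v : ℤ // Pv v} = 0 := Nat.card_of_isEmpty
    show (Nat.card {v : ℤ // Pv v} : ℝ) ≤ _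
    rw [h0]
    push_cast
    positivity
  obtain ⟨v0, hv0⟩ := hne
  have hd0 : 1 ≤ d := by omega
  -- the injection
  have hinj : Nat.card {v : ℤ // Pv v} ≤
      Nat.card {m : ℤ // |m| ≤ ((160 * N ^ 2 * D ^ 3 : ℕ) : ℤ) ∧
        Nr (t * (m : ℝ)) (2 / (K : ℝ) ^ 3)} := by
    refine card_inj_le (fun v : ℤ => 20 * (d : ℤ) ^ 3 * (v - v0)) ?_ ?_ ?_
    · refine (Set.finite_Icc (-((160 * N ^ 2 * D ^ 3 : ℕ) : ℤ))
        ((160 * N ^ 2 * D ^ 3 : ℕ) : ℤ)).subset ?_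
      intro n hn
      exact Set.mem_Icc.2 (abs_le.1 hn.1)
    · intro v hv
      obtain ⟨a1, a2, z1, hz1⟩ := hv
      obtain ⟨a3, a4, z2, hz2⟩ := hv0
      refine ⟨?_, z1 - z2, ?_⟩
      · have e1 : |v - v0| ≤ (N : ℤ) ^ 2 := by
          rw [abs_le]
          constructor <;> linarith
        have e2 : ((d : ℤ)) ^ 3 ≤ 8 * (D : ℤ) ^ 3 := by
          have : (d : ℤ) ≤ 2 * D := by exact_mod_cast hd2
          calc ((d : ℤ)) ^ 3 ≤ (2 * (D : ℤ)) ^ 3 := pow_le_pow_left₀ (by positivity) this 3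
            _ = _ := by ring
        rw [abs_mul, abs_of_nonneg (show (0 : ℤ) ≤ 20 * (d : ℤ) ^ 3 by positivity)]
        push_cast
        calc 20 * (d : ℤ) ^ 3 * |v - v0| ≤ 20 * (8 * (D : ℤ) ^ 3) * (N : ℤ) ^ 2 := by gcongr
          _ = _ := by ring
      · have e3 : t * (((20 * (d : ℤ) ^ 3 * (v - v0) : ℤ)) : ℝ) - ((z1 - z2 : ℤ) : ℝ) =
            (20 * t * (d : ℝ) ^ 3 * (v : ℝ) - c - z1) -
              (20 * t * (d : ℝ) ^ 3 * (v0 : ℝ) - c - z2) := by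
          push_cast
          ring
        rw [e3]
        refine (abs_sub _ _).trans ?_
        have e4 : 2 / (K : ℝ) ^ 3 = 1 / (K : ℝ) ^ 3 + 1 / (K : ℝ) ^ 3 := by ring
        rw [e4]
        exact add_le_add hz1 hz2
    · intro v w _ _ hvw
      have e1 : (20 * (d : ℤ) ^ 3) ≠ 0 := by
        have : (d : ℤ) ≠ 0 := by exact_mod_cast (show d ≠ 0 by omega)
        positivity
      have e2 := mul_left_cancel₀ e1 hvw
      linarith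
  have hcnu := cnu t (2 / (K : ℝ) ^ 3) b U (160 * N ^ 2 * D ^ 3) hU3 hb ht (by positivity)
  -- the numerical bounds
  have hK : 1 / (K : ℝ) ≤ 5 * D / N := by
    rw [div_le_div_iff₀ hK0 hN0]
    have : (N : ℝ) ≤ 5 * D * K := by exact_mod_cast h5
    linarith
  have hK3 : 1 / (K : ℝ) ^ 3 ≤ 125 * (D : ℝ) ^ 3 / (N : ℝ) ^ 3 := by
    have e0 : (1 : ℝ) / (K : ℝ) ^ 3 = (1 / (K : ℝ)) ^ 3 := by rw [div_pow, one_pow]
    rw [e0]
    refine (pow_le_pow_left₀ (by positivity) hK 3).trans_eq ?_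
    rw [div_pow]
    ring
  have hD6 : (D : ℝ) ^ 6 ≤ N := by
    have e1 : (D : ℝ) ^ 8 ≤ N := by exact_mod_cast hD8
    exact (pow_le_pow_right₀ hD1 (by norm_num)).trans e1
  have hNU : (N : ℝ) ^ 2 / U ≤ G := by
    rw [div_le_iff₀ hU0]
    linarith
  have b1 : (160 * (N : ℝ) ^ 2 * (D : ℝ) ^ 3) / U ≤ 160 * ((D : ℝ) ^ 3 * G) := by
    calc (160 * (N : ℝ) ^ 2 * (D : ℝ) ^ 3) / U = 160 * (D : ℝ) ^ 3 * ((N : ℝ) ^ 2 / U) := by ring
      _ ≤ 160 * (D : ℝ) ^ 3 * G := by gcongr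
      _ = _ := by ring
  have b2 : 2 / (K : ℝ) ^ 3 * U ≤ 250 * ((D : ℝ) ^ 3 * G) := by
    calc 2 / (K : ℝ) ^ 3 * U = 2 * (1 / (K : ℝ) ^ 3) * U := by ring
      _ ≤ 2 * (125 * (D : ℝ) ^ 3 / (N : ℝ) ^ 3) * ((N : ℝ) ^ 3 * G) := by gcongr
      _ = _ := by
        field_simp
        ring
  have b3 : (160 * (N : ℝ) ^ 2 * (D : ℝ) ^ 3) * (2 / (K : ℝ) ^ 3) ≤ 40000 * ((D : ℝ) ^ 3 * G) := by
    calc (160 * (N : ℝ) ^ 2 * (D : ℝ) ^ 3) * (2 / (K : ℝ) ^ 3) =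
          320 * (N : ℝ) ^ 2 * (D : ℝ) ^ 3 * (1 / (K : ℝ) ^ 3) := by ring
      _ ≤ 320 * (N : ℝ) ^ 2 * (D : ℝ) ^ 3 * (125 * (D : ℝ) ^ 3 / (N : ℝ) ^ 3) := by gcongr
      _ = 40000 * ((D : ℝ) ^ 6 / N) := by
        field_simp
        ring
      _ ≤ 40000 * 1 := by
        gcongr
        rw [div_le_one hN0]
        exact hD6
      _ ≤ 40000 * ((D : ℝ) ^ 3 * G) := by gcongr
  have hfinal : 16 * (((160 * N ^ 2 * D ^ 3 : ℕ) : ℝ) / (U : ℝ) + 1) *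
      (2 / (K : ℝ) ^ 3 * (U : ℝ) + 1) ≤ 700000 * (D : ℝ) ^ 3 * G := by
    push_cast
    have e1 : 16 * ((160 * (N : ℝ) ^ 2 * (D : ℝ) ^ 3) / (U : ℝ) + 1) *
        (2 / (K : ℝ) ^ 3 * (U : ℝ) + 1) =
        16 * ((160 * (N : ℝ) ^ 2 * (D : ℝ) ^ 3) * (2 / (K : ℝ) ^ 3) +
          (160 * (N : ℝ) ^ 2 * (D : ℝ) ^ 3) / U + 2 / (K : ℝ) ^ 3 * U + 1) := by
      field_simp
      ring
    rw [e1]
    have e2 : (0 : ℝ) < (D : ℝ) ^ 3 * G := by positivity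
    calc _ ≤ 16 * (40000 * ((D : ℝ) ^ 3 * G) + 160 * ((D : ℝ) ^ 3 * G) +
          250 * ((D : ℝ) ^ 3 * G) + (D : ℝ) ^ 3 * G) := by gcongr
      _ ≤ 700000 * (D : ℝ) ^ 3 * G := by nlinarith
  calc (Nat.card {v : ℤ // Pv v} : ℝ) ≤ _ := by exact_mod_cast hinj
    _ ≤ _ := hcnu
    _ ≤ _ := hfinal

end Pool.Agent.VM5.H32
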